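import Mathlib

/-!
# Digraph gadgets with many far vertices

`Reach A k S v`: the vertex `v` can be reached from the set `S` by a walk of length at most `k`
in the digraph with arc relation `A`.

`Gadget k N d p`: a loopless digraph with `N` vertices, all in-degrees at least `d`, in which every
set of at most `p` vertices leaves at least `d` vertices out of reach (distance more than `k`).
-/

namespace Pool.Agent.Q202.QK

open Finset

/-- `v` is reached from `S` by a walk of length at most `k`. -/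
def Reach {V : Type*} (A : V → V → Prop) : ℕ → Finset V → V → Prop
  | 0, S, v => v ∈ S
  | k + 1, S, v => Reach A k S v ∨ ∃ u, Reach A k S u ∧ A u v

theorem Reach.mono_set {V : Type*} {A : V → V → Prop} {S T : Finset V} (h : S ⊆ T) :
    ∀ {k : ℕ} {v : V}, Reach A k S v → Reach A k T v
  | 0, _, hv => h hv
  | _ + 1, _, Or.inl hv => Or.inl (Reach.mono_set h hv)
  | _ + 1, _, Or.inr ⟨u, hu, huv⟩ => Or.inr ⟨u, Reach.mono_set h hu, huv⟩

theorem Reach.of_mem {V : Type*} {A : V → V → Prop} {S : Finset V} {v : V} (hv : v ∈ S) :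
    ∀ k, Reach A k S v
  | 0 => hv
  | k + 1 => Or.inl (Reach.of_mem hv k)

theorem Reach.succ_cases {V : Type*} {A : V → V → Prop} {S : Finset V} :
    ∀ {k : ℕ} {v : V}, Reach A (k + 1) S v → v ∈ S ∨ ∃ u, Reach A k S u ∧ A u v
  | 0, _, Or.inl h => Or.inl h
  | 0, _, Or.inr h => Or.inr h
  | _ + 1, _, Or.inl h => by
      rcases Reach.succ_cases h with h1 | ⟨u, hu, huv⟩
      · exact Or.inl h1
      · exact Or.inr ⟨u, Or.inl hu, huv⟩
  | _ + 1, _, Or.inr h => Or.inr h

/-- more arcs, more reach -/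
theorem Reach.mono_rel {V : Type*} {A B : V → V → Prop} (hAB : ∀ u v, A u v → B u v)
    {S : Finset V} : ∀ {k : ℕ} {v : V}, Reach A k S v → Reach B k S v
  | 0, _, hv => hv
  | _ + 1, _, Or.inl hv => Or.inl (Reach.mono_rel hAB hv)
  | _ + 1, _, Or.inr ⟨u, hu, huv⟩ => Or.inr ⟨u, Reach.mono_rel hAB hu, hAB _ _ huv⟩

/-- the gadget property -/
def Gadget (k N d p : ℕ) : Prop :=
  ∃ (V : Type) (_ : Fintype V) (_ : DecidableEq V) (A : V → V → Prop),
    Fintype.card V = N ∧ (∀ v, ¬ A v v) ∧
    (∀ v, ∃ T : Finset V, d ≤ T.card ∧ ∀ u ∈ T, A u v) ∧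
    (∀ P : Finset V, P.card ≤ p → ∃ R : Finset V, d ≤ R.card ∧ ∀ v ∈ R, ¬ Reach A k P v)

/-- the starting gadget -/
theorem gadget_zero (d : ℕ) (hd : 1 ≤ d) : Gadget 0 (2 * d) d d := by
  refine ⟨Fin (2 * d), inferInstance, inferInstance, fun u v => u ≠ v, by simp, by simp, ?_, ?_⟩
  · intro v
    refine ⟨Finset.univ.erase v, ?_, ?_⟩
    · rw [Finset.card_erase_of_mem (Finset.mem_univ v), Finset.card_univ, Fintype.card_fin]
      omega
    · intro u hu
      exact Finset.ne_of_mem_erase hu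
  · intro P hP
    refine ⟨Finset.univ \ P, ?_, ?_⟩
    · rw [Finset.card_sdiff_of_subset (Finset.subset_univ P), Finset.card_univ, Fintype.card_fin]
      omega
    · intro v hv
      simpa [Reach] using hv

section Blow

variable {V : Type} [Fintype V] [DecidableEq V] (A : V → V → Prop)

/-- blow-up -/
def blowRel (s : ℕ) : V × Fin s → V × Fin s → Prop := fun x y => A x.1 y.1

theorem blow_reach {s : ℕ} {S : Finset (V × Fin s)} {P : Finset V}
    (hP : ∀ x ∈ S, x.1 ∈ P) : ∀ {k : ℕ} {x : V × Fin s}, Reach (blowRel A s) k S x →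
      Reach A k P x.1
  | 0, _, hx => hP _ hx
  | _ + 1, _, Or.inl hx => Or.inl (blow_reach hP hx)
  | _ + 1, _, Or.inr ⟨u, hu, hux⟩ => Or.inr ⟨u.1, blow_reach hP hu, hux⟩

end Blow

/-- blow-up of a gadget -/
theorem Gadget.blow {k N d p : ℕ} (h : Gadget k N d p) (s : ℕ) :
    Gadget k (s * N) (s * d) p := by
  obtain ⟨V, _, _, A, hN, hl, hd, hr⟩ := h
  refine ⟨V × Fin s, inferInstance, inferInstance, blowRel A s, ?_, fun v => hl v.1, ?_, ?_⟩
  · rw [Fintype.card_prod, Fintype.card_fin, hN, mul_comm]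
  · intro v
    obtain ⟨T, hT, hTA⟩ := hd v.1
    refine ⟨T ×ˢ Finset.univ, ?_, ?_⟩
    · rw [Finset.card_product, Finset.card_univ, Fintype.card_fin, mul_comm]
      exact Nat.mul_le_mul_right s hT
    · intro u hu
      exact hTA _ (Finset.mem_product.1 hu).1
  · intro S hS
    obtain ⟨R, hR, hRr⟩ := hr (S.image Prod.fst) (le_trans Finset.card_image_le hS)
    refine ⟨R ×ˢ Finset.univ, ?_, ?_⟩
    · rw [Finset.card_product, Finset.card_univ, Fintype.card_fin, mul_comm]
      exact Nat.mul_le_mul_right s hR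
    · intro v hv hreach
      exact hRr _ (Finset.mem_product.1 hv).1
        (blow_reach A (fun x hx => Finset.mem_image_of_mem _ hx) hreach)

section Step

variable {V : Type} [Fintype V] [DecidableEq V] (A : V → V → Prop) (k p : ℕ)

/-- the sets with at most `p` elements -/
abbrev Small (V : Type) [Fintype V] [DecidableEq V] (p : ℕ) : Type :=
  {P : Finset V // P.card ≤ p}

/-- vertices of a block -/
abbrev BlockV (V : Type) [Fintype V] [DecidableEq V] (p s c : ℕ) : Type :=
  (V × Fin s) ⊕ (Small V p × Fin c)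

/-- arcs of a block: the blow-up of `A`, and all copies of `a` to the copies of the set `P` if `a`
is not reached from `P`. -/
def blockRel (s c : ℕ) : BlockV V p s c → BlockV V p s c → Prop
  | Sum.inl x, Sum.inl y => A x.1 y.1
  | Sum.inl x, Sum.inr y => ¬ Reach A k y.1.1 x.1
  | Sum.inr _, _ => False

/-- arcs of the disjoint union of `M` blocks -/
def stepRel (M s c : ℕ) : Fin M × BlockV V p s c → Fin M × BlockV V p s c → Prop :=
  fun x y => x.1 = y.1 ∧ blockRel A k p s c x.2 y.2

theorem step_reach {M s c : ℕ} {S : Finset (Fin M × BlockV V p s c)} {i : Fin M}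
    {P : Finset V} (hP : ∀ a j, (i, Sum.inl (a, j)) ∈ S → a ∈ P) :
    ∀ {m : ℕ} {a : V} {j : Fin s}, Reach (stepRel A k p M s c) m S (i, Sum.inl (a, j)) →
      Reach A m P a
  | 0, _, _, hx => hP _ _ hx
  | _ + 1, _, _, Or.inl hx => Or.inl (step_reach hP hx)
  | m + 1, a, j, Or.inr ⟨u, hu, hux⟩ => by
      obtain ⟨i', u'⟩ := u
      obtain ⟨hi, hrel⟩ := hux
      simp only at hi
      subst hi
      match u', hu, hrel with
      | Sum.inl (b, l), hu, hrel => exact Or.inr ⟨b, step_reach hP hu, hrel⟩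
      | Sum.inr _, hu, hrel => exact hrel.elim

theorem step_far {M s c : ℕ} {S : Finset (Fin M × BlockV V p s c)} {i : Fin M}
    {P : Small V p} (hP : ∀ a j, (i, Sum.inl (a, j)) ∈ S → a ∈ P.1) {l : Fin c}
    (hl : (i, Sum.inr (P, l)) ∉ S) :
    ¬ Reach (stepRel A k p M s c) (k + 1) S (i, Sum.inr (P, l)) := by
  intro h
  rcases h.succ_cases with h | ⟨⟨i', u'⟩, hu, hi, hrel⟩
  · exact hl h
  · simp only at hi
    subst hi
    match u', hu, hrel with
    | Sum.inl (b, l), hu, hrel => exact hrel (step_reach A k p hP hu)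
    | Sum.inr _, hu, hrel => exact hrel.elim

end Step

end Pool.Agent.Q202.QK
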