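import Mathlib

/-!
# q-kernels of digraphs

Definitions of the problem MP_32aa3b_co.  Digraphs are `Digraph (Fin n)` without loops.
-/

namespace Pool.Agent.Q202.QK

/-- There is a directed path of length `l` (so with `l + 1` distinct vertices) from `u` to `v`. -/
def PathFrom {n : ℕ} (D : Digraph (Fin n)) (l : ℕ) (u v : Fin n) : Prop :=
  ∃ p : Fin (l + 1) → Fin n, Function.Injective p ∧ p 0 = u ∧ p (Fin.last l) = v ∧
    ∀ i : Fin l, D.Adj (p i.castSucc) (p i.succ)

/-- Every vertex is the endpoint of a directed path of length at most `q` that starts in `Q`. -/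
def Reaches {n : ℕ} (D : Digraph (Fin n)) (q : ℕ) (Q : Finset (Fin n)) : Prop :=
  ∀ v, ∃ u ∈ Q, ∃ l ≤ q, PathFrom D l u v

/-- `Q` is a `q`-kernel of `D`. -/
def IsQKernel {n : ℕ} (D : Digraph (Fin n)) (q : ℕ) (Q : Finset (Fin n)) : Prop :=
  (∀ u ∈ Q, ∀ v ∈ Q, ¬ D.Adj u v) ∧ Reaches D q Q

/-- The in-degree of `v`. -/
noncomputable def inDeg {n : ℕ} (D : Digraph (Fin n)) (v : Fin n) : ℕ :=
  Set.ncard {u | D.Adj u v}

/-- The minimum in-degree of `D` is `δ`. -/
def MinInDegEq {n : ℕ} (D : Digraph (Fin n)) (δ : ℕ) : Prop :=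
  (∀ v, δ ≤ inDeg D v) ∧ ∃ v, inDeg D v = δ

/-- The property of the real number `c` in the definition of `c_{δ,q}`: every loopless digraph `D`
of minimum in-degree `δ` has a `q`-kernel with at most `c * |V(D)|` vertices. -/
def Works (δ q : ℕ) (c : ℝ) : Prop :=
  ∀ (n : ℕ) (D : Digraph (Fin n)), (∀ v, ¬ D.Adj v v) → MinInDegEq D δ →
    ∃ Q : Finset (Fin n), IsQKernel D q Q ∧ (Q.card : ℝ) ≤ c * n

/-- The constant `c_{δ,q}`. -/
noncomputable def cConst (δ q : ℕ) : ℝ := sInf {c : ℝ | Works δ q c}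

end Pool.Agent.Q202.QK
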