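import Pool.Agent.Q202.QK.Basic

/-!
# The inductive step: from distance `k` to distance `k + 1`
-/

namespace Pool.Agent.Q202.QK

open Finset

theorem step_block {V : Type} [Fintype V] [DecidableEq V] (A : V → V → Prop) (k p M s : ℕ)
    (S : Finset (Fin M × BlockV V p s (p + 1))) (i : Fin M)
    (hS : (S.filter (fun x => x.1 = i)).card ≤ p) :
    ∃ y : BlockV V p s (p + 1), ¬ Reach (stepRel A k p M s (p + 1)) (k + 1) S (i, y) := by
  classical
  set Si := S.filter (fun x => x.1 = i) with hSi
  -- the projection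
  let f : Fin M × BlockV V p s (p + 1) → Option V := fun x =>
    match x.2 with
    | Sum.inl y => some y.1
    | Sum.inr _ => none
  let P0 : Finset V := Finset.univ.filter (fun a => some a ∈ Si.image f)
  have hP0 : P0.card ≤ p := by
    have h1 : (P0.image some).card ≤ (Si.image f).card := by
      apply Finset.card_le_card
      intro x hx
      obtain ⟨a, ha, rfl⟩ := Finset.mem_image.1 hx
      exact (Finset.mem_filter.1 ha).2
    rw [Finset.card_image_of_injective _ (Option.some_injective V)] at h1
    exact h1.trans (Finset.card_image_le.trans hS)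
  let P : Small V p := ⟨P0, hP0⟩
  have hP : ∀ a j, (i, (Sum.inl (a, j) : BlockV V p s (p + 1))) ∈ S → a ∈ P.1 := by
    intro a j h
    refine Finset.mem_filter.2 ⟨Finset.mem_univ a, ?_⟩
    refine Finset.mem_image.2 ⟨(i, Sum.inl (a, j)), ?_, rfl⟩
    exact Finset.mem_filter.2 ⟨h, rfl⟩
  -- some copy of the vertex `P` is not in `S`
  have hex : ∃ l : Fin (p + 1), (i, (Sum.inr (P, l) : BlockV V p s (p + 1))) ∉ S := by
    by_contra hcon
    have hcon : ∀ l : Fin (p + 1), (i, (Sum.inr (P, l) : BlockV V p s (p + 1))) ∈ S := by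
      intro l
      by_contra h
      exact hcon ⟨l, h⟩
    have h2 : (Finset.univ.image (fun l : Fin (p + 1) =>
        ((i, Sum.inr (P, l)) : Fin M × BlockV V p s (p + 1)))) ⊆ Si := by
      intro x hx
      obtain ⟨l, -, rfl⟩ := Finset.mem_image.1 hx
      exact Finset.mem_filter.2 ⟨hcon l, rfl⟩
    have h3 := Finset.card_le_card h2
    rw [Finset.card_image_of_injective, Finset.card_univ, Fintype.card_fin] at h3
    · omega
    · intro l l' hll
      simpa using hll
  obtain ⟨l, hl⟩ := hex
  exact ⟨_, step_far A k p hP hl⟩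

theorem Gadget.step {k N d p C : ℕ} (h : Gadget k N d p) (hC1 : 1 ≤ C) (hd1 : 1 ≤ d)
    (hC : 2 * C * N ≤ (p + 1) * d) :
    ∃ N' d' p', Gadget (k + 1) N' d' p' ∧ 1 ≤ d' ∧ C * N' ≤ (p' + 1) * d' := by
  classical
  obtain ⟨V, _, _, A, hN, hl, hd, hr⟩ := h
  set K := Fintype.card (Small V p) with hK
  have hK1 : 1 ≤ K := Fintype.card_pos_iff.2 ⟨⟨∅, by simp⟩⟩
  set s := 4 * C * (p + 1) * K with hs
  have hs1 : 1 ≤ s := by
    have : 0 < s := by positivity
    exact this
  set M' := s * d with hM'
  have hM1 : 1 ≤ M' := by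
    have : 0 < M' := by positivity
    exact this
  refine ⟨(4 * M') * (N * s + K * (p + 1)), s * d, (3 * M' + 1) * (p + 1) - 1,
    ⟨Fin (4 * M') × BlockV V p s (p + 1), inferInstance, inferInstance,
      stepRel A k p (4 * M') s (p + 1), ?_, ?_, ?_, ?_⟩, hM1, ?_⟩
  · simp only [Fintype.card_prod, Fintype.card_fin, Fintype.card_sum, hN]
    rw [← hK]
  · rintro ⟨i, v⟩ ⟨-, hv⟩
    match v, hv with
    | Sum.inl x, hv => exact hl _ hv
    | Sum.inr _, hv => exact hv.elim
  · rintro ⟨i, v⟩
    match v with
    | Sum.inl x =>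
      obtain ⟨T, hT, hTA⟩ := hd x.1
      refine ⟨(T ×ˢ (Finset.univ : Finset (Fin s))).image
        (fun y => ((i, Sum.inl y) : Fin (4 * M') × BlockV V p s (p + 1))), ?_, ?_⟩
      · rw [Finset.card_image_of_injective, Finset.card_product, Finset.card_univ,
          Fintype.card_fin, mul_comm]
        · exact Nat.mul_le_mul_right s hT
        · intro y y' hyy
          simpa using hyy
      · intro u hu
        obtain ⟨y, hy, rfl⟩ := Finset.mem_image.1 hu
        exact ⟨rfl, hTA _ (Finset.mem_product.1 hy).1⟩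
    | Sum.inr x =>
      obtain ⟨R, hR, hRr⟩ := hr x.1.1 x.1.2
      refine ⟨(R ×ˢ (Finset.univ : Finset (Fin s))).image
        (fun y => ((i, Sum.inl y) : Fin (4 * M') × BlockV V p s (p + 1))), ?_, ?_⟩
      · rw [Finset.card_image_of_injective, Finset.card_product, Finset.card_univ,
          Fintype.card_fin, mul_comm]
        · exact Nat.mul_le_mul_right s hR
        · intro y y' hyy
          simpa using hyy
      · intro u hu
        obtain ⟨y, hy, rfl⟩ := Finset.mem_image.1 hu
        exact ⟨rfl, hRr _ (Finset.mem_product.1 hy).1⟩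
  · intro S hS
    -- the blocks with many elements of `S`
    set B := (Finset.univ : Finset (Fin (4 * M'))).filter
      (fun i => p + 1 ≤ (S.filter (fun x => x.1 = i)).card) with hB
    have hBcard : B.card ≤ 3 * M' := by
      have h1 : B.card * (p + 1) ≤ S.card := by
        calc B.card * (p + 1) = ∑ i ∈ B, (p + 1) := by rw [Finset.sum_const, smul_eq_mul]
          _ ≤ ∑ i ∈ B, (S.filter (fun x => x.1 = i)).card := by
              apply Finset.sum_le_sum
              intro i hi
              exact (Finset.mem_filter.1 hi).2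
          _ ≤ ∑ i, (S.filter (fun x => x.1 = i)).card :=
              Finset.sum_le_sum_of_subset (Finset.subset_univ B)
          _ = S.card := (Finset.card_eq_sum_card_fiberwise
              (f := fun x : Fin (4 * M') × BlockV V p s (p + 1) => x.1)
              (s := S) (t := Finset.univ) (fun x _ => by simp)).symm
      have h2 : B.card * (p + 1) < (3 * M' + 1) * (p + 1) := by
        have : 0 < (3 * M' + 1) * (p + 1) := by positivity
        omega
      have h3 := lt_of_mul_lt_mul_right h2 (Nat.zero_le _)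
      omega
    have hgood : ∀ i : Fin (4 * M'), i ∉ B →
        ∃ y : BlockV V p s (p + 1),
          ¬ Reach (stepRel A k p (4 * M') s (p + 1)) (k + 1) S (i, y) := by
      intro i hi
      apply step_block
      by_contra hcon
      exact hi (Finset.mem_filter.2 ⟨Finset.mem_univ _, by omega⟩)
    have : Nonempty (BlockV V p s (p + 1)) := ⟨Sum.inr (⟨∅, by simp⟩, 0)⟩
    choose! y hy using hgood
    refine ⟨(Finset.univ \ B).image (fun i => (i, y i)), ?_, ?_⟩
    · rw [Finset.card_image_of_injective, Finset.card_sdiff_of_subset (Finset.subset_univ B),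
        Finset.card_univ, Fintype.card_fin]
      · omega
      · intro i j hij
        exact (Prod.ext_iff.1 hij).1
    · intro v hv
      obtain ⟨i, hi, rfl⟩ := Finset.mem_image.1 hv
      exact hy i (Finset.mem_sdiff.1 hi).2
  · have e1 : (3 * M' + 1) * (p + 1) - 1 + 1 = (3 * M' + 1) * (p + 1) := by
      have : 0 < (3 * M' + 1) * (p + 1) := by positivity
      omega
    rw [e1]
    have e2 : C * (4 * M' * (N * s + K * (p + 1))) =
        2 * (M' * s * (2 * C * N)) + M' * s := by
      rw [hs]; ring
    rw [e2]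
    have e3 : M' * s * (2 * C * N) ≤ M' * s * ((p + 1) * d) := Nat.mul_le_mul_left _ hC
    have e4 : M' * s ≤ M' * s * ((p + 1) * d) := by
      have : 1 ≤ (p + 1) * d := Nat.mul_pos (Nat.succ_pos p) hd1
      exact Nat.le_mul_of_pos_right _ this
    have e5 : (3 * M' + 1) * (p + 1) * (s * d) = 3 * (M' * s * ((p + 1) * d)) +
        (p + 1) * (s * d) := by ring
    rw [e5]
    omega

/-- gadgets of every level and every ratio -/
theorem exists_gadget (k : ℕ) : ∀ C : ℕ, 1 ≤ C →
    ∃ N d p, Gadget k N d p ∧ 1 ≤ d ∧ C * N ≤ (p + 1) * d := by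
  induction k with
  | zero =>
    intro C hC
    refine ⟨2 * (2 * C), 2 * C, 2 * C, gadget_zero _ (by omega), by omega, ?_⟩
    nlinarith
  | succ k ih =>
    intro C hC
    obtain ⟨N, d, p, hg, hd, hle⟩ := ih (2 * C) (by omega)
    exact hg.step hC hd hle

end Pool.Agent.Q202.QK
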