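import Pool.Agent.Q202.QK.Defs
import Pool.Agent.Q202.QK.Step

/-!
# Quasi-kernels, the least constant, and the growth of `c_{δ,q}`
-/

namespace Pool.Agent.Q202.QK

open Finset Filter

/-- The theorem of Chvátal and Lovász, in induced subdigraphs. -/
theorem quasi_kernel {V : Type*} [DecidableEq V] (A : V → V → Prop) (hA : ∀ v, ¬ A v v) :
    ∀ (m : ℕ) (W : Finset V), W.card = m → ∃ Q ⊆ W, (∀ u ∈ Q, ∀ v ∈ Q, ¬ A u v) ∧
      ∀ x ∈ W, ∃ u ∈ Q, u = x ∨ A u x ∨ ∃ w, A u w ∧ A w x := by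
  classical
  intro m
  induction m using Nat.strong_induction_on with
  | _ m ih =>
    intro W hW
    rcases W.eq_empty_or_nonempty with rfl | ⟨v, hv⟩
    · exact ⟨∅, by simp, by simp, by simp⟩
    · have hlt : (W.filter (fun w => w ≠ v ∧ ¬ A v w)).card < m := by
        rw [← hW]
        apply Finset.card_lt_card
        refine ⟨Finset.filter_subset _ _, fun h => ?_⟩
        exact (Finset.mem_filter.1 (h hv)).2.1 rfl
      obtain ⟨Q, hQW, hQi, hQr⟩ := ih _ hlt _ rfl
      by_cases hex : ∃ u ∈ Q, A u v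
      · obtain ⟨u, hu, huv⟩ := hex
        refine ⟨Q, hQW.trans (Finset.filter_subset _ _), hQi, ?_⟩
        intro x hx
        by_cases hxv : x = v
        · exact ⟨u, hu, Or.inr (Or.inl (hxv ▸ huv))⟩
        · by_cases hvx : A v x
          · exact ⟨u, hu, Or.inr (Or.inr ⟨v, huv, hvx⟩)⟩
          · exact hQr x (Finset.mem_filter.2 ⟨hx, hxv, hvx⟩)
      · refine ⟨insert v Q, ?_, ?_, ?_⟩
        · intro x hx
          rcases Finset.mem_insert.1 hx with rfl | hx
          · exact hv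
          · exact (Finset.mem_filter.1 (hQW hx)).1
        · intro a ha b hb
          rcases Finset.mem_insert.1 ha with ha | ha
          · rcases Finset.mem_insert.1 hb with hb | hb
            · rw [ha, hb]; exact hA v
            · rw [ha]; exact (Finset.mem_filter.1 (hQW hb)).2.2
          · rcases Finset.mem_insert.1 hb with hb | hb
            · rw [hb]; exact fun h => hex ⟨a, ha, h⟩
            · exact hQi a ha b hb
        · intro x hx
          by_cases hxv : x = v
          · exact ⟨v, Finset.mem_insert_self _ _, Or.inl hxv.symm⟩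
          · by_cases hvx : A v x
            · exact ⟨v, Finset.mem_insert_self _ _, Or.inr (Or.inl hvx)⟩
            · obtain ⟨u, hu, h⟩ := hQr x (Finset.mem_filter.2 ⟨hx, hxv, hvx⟩)
              exact ⟨u, Finset.mem_insert_of_mem hu, h⟩

theorem exists_qKernel {n : ℕ} (D : Digraph (Fin n)) (hD : ∀ v, ¬ D.Adj v v) {q : ℕ}
    (hq : 2 ≤ q) : ∃ Q : Finset (Fin n), IsQKernel D q Q := by
  obtain ⟨Q, -, hQi, hQr⟩ := quasi_kernel D.Adj hD _ Finset.univ rfl
  refine ⟨Q, hQi, ?_⟩
  intro v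
  obtain ⟨u, hu, h⟩ := hQr v (Finset.mem_univ v)
  refine ⟨u, hu, ?_⟩
  have h0 : u = v → ∃ l ≤ q, PathFrom D l u v := by
    intro huv
    refine ⟨0, by omega, fun _ => u, ?_, rfl, huv, fun i => i.elim0⟩
    intro a b _
    exact Subsingleton.elim (α := Fin 1) a b
  rcases h with h | h | ⟨w, huw, hwv⟩
  · exact h0 h
  · have huv : u ≠ v := fun e => hD v (e ▸ h)
    refine ⟨1, by omega, ![u, v], ?_, rfl, rfl, ?_⟩
    · intro a b hab
      fin_cases a <;> fin_cases b
      · rfl
      · exact absurd hab huv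
      · exact absurd hab.symm huv
      · rfl
    · intro i
      fin_cases i
      exact h
  · by_cases huv : u = v
    · exact h0 huv
    · have h1 : u ≠ w := fun e => hD w (e ▸ huw)
      have h2 : w ≠ v := fun e => hD v (e ▸ hwv)
      refine ⟨2, hq, ![u, w, v], ?_, rfl, rfl, ?_⟩
      · intro a b hab
        fin_cases a <;> fin_cases b
        · rfl
        · exact absurd hab h1
        · exact absurd hab huv
        · exact absurd hab.symm h1
        · rfl
        · exact absurd hab h2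
        · exact absurd hab.symm huv
        · exact absurd hab.symm h2
        · rfl
      · intro i
        fin_cases i
        · exact huw
        · exact hwv

theorem Reach.mono_nat {V : Type*} {A : V → V → Prop} {S : Finset V} {v : V} {k m : ℕ}
    (hkm : k ≤ m) (h : Reach A k S v) : Reach A m S v := by
  induction hkm with
  | refl => exact h
  | step _ ih => exact Or.inl ih

theorem reach_of_walk {V : Type*} {A : V → V → Prop} {S : Finset V} :
    ∀ (l : ℕ) (p : Fin (l + 1) → V), p 0 ∈ S →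
      (∀ i : Fin l, A (p i.castSucc) (p i.succ)) → Reach A l S (p (Fin.last l))
  | 0, _, h0, _ => h0
  | l + 1, p, h0, hp => by
      refine Or.inr ⟨p (Fin.last l).castSucc, ?_, hp (Fin.last l)⟩
      exact reach_of_walk l (fun i => p i.castSucc) h0 (fun i => hp i.castSucc)

theorem Reaches.reach {n : ℕ} {D : Digraph (Fin n)} {q : ℕ} {Q : Finset (Fin n)}
    (h : Reaches D q Q) (v : Fin n) : Reach D.Adj q Q v := by
  obtain ⟨u, hu, l, hl, p, -, h0, h1, hp⟩ := h v
  have := reach_of_walk (A := D.Adj) (S := Q) l p (h0 ▸ hu) hp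
  rw [h1] at this
  exact this.mono_nat hl

theorem reach_transfer {V : Type*} [DecidableEq V] {n : ℕ} (e : Fin n ≃ V) {A : V → V → Prop}
    {D : Digraph (Fin n)} (hD : ∀ a b, D.Adj a b → A (e a) (e b)) {Q : Finset (Fin n)} :
    ∀ {k : ℕ} {a : Fin n}, Reach D.Adj k Q a → Reach A k (Q.image e) (e a)
  | 0, _, h => Finset.mem_image_of_mem _ h
  | _ + 1, _, Or.inl h => Or.inl (reach_transfer e hD h)
  | _ + 1, _, Or.inr ⟨u, hu, huv⟩ => Or.inr ⟨e u, reach_transfer e hD hu, hD _ _ huv⟩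

/-- Digraphs of minimum in-degree `δ` which need many vertices. -/
theorem exists_digraph (q C : ℕ) : ∃ δ₀ : ℕ, ∀ δ, δ₀ ≤ δ → ∃ (n : ℕ) (D : Digraph (Fin n)),
    0 < n ∧ (∀ v, ¬ D.Adj v v) ∧ MinInDegEq D δ ∧
    ∀ Q : Finset (Fin n), Reaches D q Q → C * n < Q.card * (δ + 1) := by
  classical
  obtain ⟨N, d, p, hg, hd, hle⟩ := exists_gadget q (2 * (C + 1)) (by omega)
  refine ⟨d, fun δ hδ => ?_⟩
  set s := (δ + d - 1) / d with hs
  have hs1 : s * d ≤ δ + d - 1 := Nat.div_mul_le_self _ _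
  have hs2 : δ ≤ s * d := by
    have h1 : (δ + d - 1) < (s + 1) * d := by
      have := Nat.lt_div_mul_add (a := δ + d - 1) (b := d) (by omega)
      rw [← hs] at this
      nlinarith
    have h2 : (s + 1) * d = s * d + d := by ring
    omega
  obtain ⟨V, _, _, A, hN, hl, hin, hr⟩ := hg.blow s
  have hpos : 0 < s * N := by
    obtain ⟨R, hR, -⟩ := hr ∅ (by simp)
    have h1 : 1 ≤ R.card := by omega
    rw [← hN]
    exact lt_of_lt_of_le (by omega) (Finset.card_le_univ R)
  -- exact in-degrees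
  have hex : ∀ v, ∃ T : Finset V, T.card = δ ∧ ∀ u ∈ T, A u v := by
    intro v
    obtain ⟨T, hT, hTA⟩ := hin v
    obtain ⟨T', hT', hc⟩ := Finset.exists_subset_card_eq (show δ ≤ T.card by omega)
    exact ⟨T', hc, fun u hu => hTA u (hT' hu)⟩
  choose T hTc hTA using hex
  let e : Fin (s * N) ≃ V := (Fintype.equivFinOfCardEq hN).symm
  let D : Digraph (Fin (s * N)) := ⟨fun a b => e a ∈ T (e b)⟩
  have hDA : ∀ a b, D.Adj a b → A (e a) (e b) := fun a b h => hTA _ _ h
  have hdeg : ∀ v, inDeg D v = δ := by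
    intro v
    have h1 : {u | D.Adj u v} = e.symm '' (T (e v) : Set V) := by
      ext u
      constructor
      · intro h
        exact ⟨e u, h, by simp⟩
      · rintro ⟨x, hx, rfl⟩
        change e (e.symm x) ∈ T (e v)
        rw [Equiv.apply_symm_apply]
        exact hx
    rw [inDeg, h1, Set.ncard_image_of_injective _ e.symm.injective, Set.ncard_coe_finset, hTc]
  refine ⟨s * N, D, hpos, fun v h => hl _ (hDA v v h), ⟨fun v => (hdeg v).ge, ⟨0, hpos⟩, hdeg _⟩,
    ?_⟩
  intro Q hQ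
  have hQp : p + 1 ≤ Q.card := by
    by_contra hcon
    obtain ⟨R, hR, hRr⟩ := hr (Q.image e) (Finset.card_image_le.trans (by omega))
    have hRne : R.Nonempty := by
      rw [← Finset.card_pos]
      have : 1 ≤ s * d := by omega
      omega
    obtain ⟨v, hv⟩ := hRne
    have h1 := reach_transfer e hDA (hQ.reach (e.symm v))
    rw [Equiv.apply_symm_apply] at h1
    exact hRr v hv h1
  -- the inequality
  have h1 : 2 * ((C + 1) * (s * N)) ≤ 2 * ((p + 1) * δ) := by
    calc 2 * ((C + 1) * (s * N)) = s * (2 * (C + 1) * N) := by ring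
      _ ≤ s * ((p + 1) * d) := Nat.mul_le_mul_left _ hle
      _ = (p + 1) * (s * d) := by ring
      _ ≤ (p + 1) * (2 * δ) := Nat.mul_le_mul_left _ (by omega)
      _ = 2 * ((p + 1) * δ) := by ring
  calc C * (s * N) < (C + 1) * (s * N) := by nlinarith
    _ ≤ (p + 1) * δ := by omega
    _ ≤ Q.card * (δ + 1) := Nat.mul_le_mul hQp (Nat.le_succ δ)

/-- For `q ≥ 2` the least constant exists. -/
theorem isLeast_cConst (δ q : ℕ) (hq : 2 ≤ q) :
    IsLeast {c : ℝ | Works δ q c} (cConst δ q) := by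
  classical
  -- a digraph of minimum in-degree `δ`
  have hK : ∃ D : Digraph (Fin (δ + 1)), (∀ v, ¬ D.Adj v v) ∧ MinInDegEq D δ := by
    let D : Digraph (Fin (δ + 1)) := ⟨fun a b => a ≠ b⟩
    have hdeg : ∀ v, inDeg D v = δ := by
      intro v
      have h1 : {u | D.Adj u v} = ((Finset.univ.erase v : Finset (Fin (δ + 1))) : Set _) := by
        ext u
        simp [D]
      rw [inDeg, h1, Set.ncard_coe_finset, Finset.card_erase_of_mem (Finset.mem_univ v),
        Finset.card_univ, Fintype.card_fin]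
      rfl
    exact ⟨D, fun v h => h rfl, fun v => (hdeg v).ge, 0, hdeg 0⟩
  have hne : Works δ q 1 := by
    intro n D hD _
    obtain ⟨Q, hQ⟩ := exists_qKernel D hD hq
    refine ⟨Q, hQ, ?_⟩
    rw [one_mul]
    have := Finset.card_le_univ Q
    rw [Fintype.card_fin] at this
    exact_mod_cast this
  have hbdd : BddBelow {c : ℝ | Works δ q c} := by
    refine ⟨0, fun c hc => ?_⟩
    obtain ⟨D, hD, hdeg⟩ := hK
    obtain ⟨Q, -, hQ⟩ := hc _ D hD hdeg
    by_contra hcon
    have h1 : c < 0 := lt_of_not_ge hcon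
    have h2 : (0 : ℝ) < ((δ + 1 : ℕ) : ℝ) := by positivity
    have h3 : c * ((δ + 1 : ℕ) : ℝ) < 0 := mul_neg_of_neg_of_pos h1 h2
    have h4 : (0 : ℝ) ≤ (Q.card : ℝ) := Nat.cast_nonneg _
    linarith
  refine ⟨?_, fun c hc => csInf_le hbdd hc⟩
  intro n D hD hdeg
  have hn : 0 < n := by
    obtain ⟨-, v, -⟩ := hdeg
    exact lt_of_le_of_lt (Nat.zero_le _) v.2
  have hn' : (0 : ℝ) < (n : ℝ) := by exact_mod_cast hn
  -- the least size of a `q`-kernel
  have hex : ∃ m, ∃ Q : Finset (Fin n), IsQKernel D q Q ∧ Q.card = m := by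
    obtain ⟨Q, hQ⟩ := exists_qKernel D hD hq
    exact ⟨_, Q, hQ, rfl⟩
  obtain ⟨Q, hQ, hQm⟩ := Nat.find_spec hex
  refine ⟨Q, hQ, ?_⟩
  have h1 : (Q.card : ℝ) / n ≤ cConst δ q := by
    apply le_csInf ⟨1, hne⟩
    intro c hc
    obtain ⟨Q', hQ', hc'⟩ := hc n D hD hdeg
    have h2 : Q.card ≤ Q'.card := by
      rw [hQm]
      exact Nat.find_min' hex ⟨Q', hQ', rfl⟩
    rw [div_le_iff₀ hn']
    have h3 : (Q.card : ℝ) ≤ (Q'.card : ℝ) := by exact_mod_cast h2
    linarith
  rwa [div_le_iff₀ hn'] at h1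

theorem tendsto_cConst (q : ℕ) (hq : 2 ≤ q) :
    Tendsto (fun δ : ℕ => cConst δ q * ((δ : ℝ) + 1)) atTop atTop := by
  rw [tendsto_atTop]
  intro b
  obtain ⟨C, hC⟩ := exists_nat_ge b
  obtain ⟨δ₀, hδ₀⟩ := exists_digraph q C
  filter_upwards [eventually_ge_atTop δ₀] with δ hδ
  obtain ⟨n, D, hn, hD, hdeg, hQ⟩ := hδ₀ δ hδ
  obtain ⟨Q, hQk, hQc⟩ := (isLeast_cConst δ q hq).1 n D hD hdeg
  have h1 := hQ Q hQk.2
  have h2 : (C : ℝ) * n < (Q.card : ℝ) * ((δ : ℝ) + 1) := by exact_mod_cast h1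
  have hn' : (0 : ℝ) < (n : ℝ) := by exact_mod_cast hn
  have h3 : (Q.card : ℝ) * ((δ : ℝ) + 1) ≤ cConst δ q * n * ((δ : ℝ) + 1) :=
    mul_le_mul_of_nonneg_right hQc (by positivity)
  have h4 : (C : ℝ) * n < (cConst δ q * ((δ : ℝ) + 1)) * n := by linarith
  have h5 := lt_of_mul_lt_mul_right h4 hn'.le
  linarith

end Pool.Agent.Q202.QK
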